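import Mathlib

set_option autoImplicit false

open MeasureTheory ProbabilityTheory
open scoped ENNReal

namespace Pool.Agent.Results.MP_469b0e_pr.Transient

/-- `f` has the mean-value property for simple random walk on `G`. -/
def IsHarmonic {V : Type*} (G : SimpleGraph V) [G.LocallyFinite] (f : V → ℝ) : Prop :=
  ∀ x, f x = 1 / (G.degree x : ℝ) * ∑ y ∈ G.neighborFinset x, f y

open Classical in
/-- One step of simple random walk from `x`: a uniformly chosen neighbour of `x`
(the walk stays put at an isolated vertex). -/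
noncomputable def step {V : Type*} (G : SimpleGraph V) [G.LocallyFinite] (x : V) : PMF V :=
  if h : (G.neighborFinset x).Nonempty then PMF.uniformOfFinset (G.neighborFinset x) h
  else PMF.pure x

/-- The transition kernel of simple random walk, given the whole history up to time `n`
(it depends on the present position only). -/
noncomputable def stepKernel {V : Type*} [MeasurableSpace V] [DiscreteMeasurableSpace V]
    (G : SimpleGraph V) [G.LocallyFinite] (n : ℕ) :
    Kernel ((i : Finset.Iic n) → V) V where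
  toFun w := (step G (w ⟨n, Finset.mem_Iic.mpr le_rfl⟩)).toMeasure
  measurable' := (Measurable.of_discrete (f := fun x => (step G x).toMeasure)).comp
    (measurable_pi_apply _)

instance {V : Type*} [MeasurableSpace V] [DiscreteMeasurableSpace V]
    (G : SimpleGraph V) [G.LocallyFinite] (n : ℕ) :
    IsMarkovKernel (stepKernel G n) :=
  ⟨fun w => by
    change IsProbabilityMeasure (step G (w ⟨n, Finset.mem_Iic.mpr le_rfl⟩)).toMeasure
    infer_instance⟩

/-- The law, on trajectories `ℕ → V`, of simple random walk started at `x`. -/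
noncomputable def srwLaw {V : Type*} [MeasurableSpace V] [DiscreteMeasurableSpace V]
    (G : SimpleGraph V) [G.LocallyFinite] (x : V) : Measure (ℕ → V) :=
  Kernel.traj (X := fun _ => V) (stepKernel G) 0 (fun _ => x)

/-- `G` is transient: simple random walk returns to its starting vertex with probability
less than one. -/
def IsTransient {V : Type*} [MeasurableSpace V] [DiscreteMeasurableSpace V]
    (G : SimpleGraph V) [G.LocallyFinite] : Prop :=
  ∀ x, srwLaw G x {ω | ∃ n, 1 ≤ n ∧ ω n = x} < 1

section supermartingale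

variable {V : Type*} [MeasurableSpace V] [DiscreteMeasurableSpace V]
    [Countable V] (G : SimpleGraph V) [G.LocallyFinite]

theorem lintegral_step (x : V) (hx : 0 < G.degree x) (h : V → ℝ≥0∞) :
    ∫⁻ y, h y ∂(step G x).toMeasure = (∑ y ∈ G.neighborFinset x, h y) / (G.degree x : ℝ≥0∞) := by
  classical
  have hne : (G.neighborFinset x).Nonempty := by
    rw [← Finset.card_pos, G.card_neighborFinset_eq_degree]
    exact hx
  rw [lintegral_countable' h]
  have h1 : ∀ y, (step G x).toMeasure {y} =
      if y ∈ G.neighborFinset x then ((G.degree x : ℝ≥0∞))⁻¹ else 0 := by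
    intro y
    rw [PMF.toMeasure_apply_singleton _ _ (measurableSet_singleton y), step, dif_pos hne,
      PMF.uniformOfFinset_apply, G.card_neighborFinset_eq_degree]
  simp_rw [h1]
  rw [tsum_eq_sum (s := G.neighborFinset x)]
  · rw [ENNReal.div_eq_inv_mul, Finset.mul_sum]
    refine Finset.sum_congr rfl fun y hy => ?_
    rw [if_pos hy, mul_comm]
  · intro y hy
    rw [if_neg hy, mul_zero]

/-- Optional stopping bound for the return probability. -/
theorem return_le (hdeg : ∀ x, 0 < G.degree x) (h : V → ℝ≥0∞) (o : V) (ho : h o = 1)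
    (hsup : ∀ x, (∑ y ∈ G.neighborFinset x, h y) / (G.degree x : ℝ≥0∞) ≤ h x) :
    srwLaw G o {ω | ∃ n, 1 ≤ n ∧ ω n = o} ≤
      (∑ y ∈ G.neighborFinset o, h y) / (G.degree o : ℝ≥0∞) := by
  classical
  set μ := srwLaw G o with hμ
  have hprob : IsProbabilityMeasure μ := by
    rw [hμ, srwLaw]
    infer_instance
  -- the stopped process
  let Φ : ℕ → (ℕ → V) → ℝ≥0∞ := fun n ω =>
    if ∃ m, 1 ≤ m ∧ m ≤ n ∧ ω m = o then 1 else h (ω n)
  have hmeas : ∀ n, MeasurableSet {ω : ℕ → V | ω n = o} := by
    intro n
    have : {ω : ℕ → V | ω n = o} = (fun ω : ℕ → V => ω n) ⁻¹' {o} := by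
      ext; simp
    rw [this]
    exact (measurable_pi_apply n) (measurableSet_singleton o)
  -- conditional step
  have hstep : ∀ (n : ℕ) (φ : ((i : Finset.Iic n) → V) × V → ℝ≥0∞), Measurable φ →
      ∫⁻ ω, φ (Preorder.frestrictLe n ω, ω (n + 1)) ∂μ =
      ∫⁻ w, ∫⁻ y, φ (w, y) ∂(stepKernel G n w) ∂(μ.map (Preorder.frestrictLe n)) := by
    intro n φ hφ
    have h1 := Kernel.partialTraj_compProd_eq_map_traj (X := fun _ => V) (κ := stepKernel G)
      (Nat.zero_le n) (x₀ := fun _ => o)
    have h2 := Kernel.traj_map_frestrictLe_apply (X := fun _ => V) (κ := stepKernel G) 0 n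
      (fun _ => o)
    rw [hμ, srwLaw, h2, ← Measure.lintegral_compProd hφ, h1, lintegral_map hφ (by fun_prop)]
  -- the present position after the step
  have hpos : ∀ (n : ℕ), ∫⁻ ω, Φ (n + 1) ω ∂μ ≤
      ∫⁻ ω, (if ∃ m, 1 ≤ m ∧ m ≤ n ∧ ω m = o then 1 else
        (∑ y ∈ G.neighborFinset (ω n), h y) / (G.degree (ω n) : ℝ≥0∞)) ∂μ := by
    intro n
    let A : Set ((i : Finset.Iic n) → V) :=
      {w | ∃ m : Finset.Iic n, 1 ≤ m.1 ∧ w m = o}
    have hA : MeasurableSet A := by
      have : A = ⋃ m : Finset.Iic n, {w | 1 ≤ m.1 ∧ w m = o} := by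
        ext w; simp [A]
      rw [this]
      refine MeasurableSet.iUnion fun m => ?_
      by_cases hm : 1 ≤ m.1
      · have : {w : (i : Finset.Iic n) → V | 1 ≤ m.1 ∧ w m = o} = (fun w => w m) ⁻¹' {o} := by
          ext; simp [hm]
        rw [this]
        exact (measurable_pi_apply m) (measurableSet_singleton o)
      · have : {w : (i : Finset.Iic n) → V | 1 ≤ m.1 ∧ w m = o} = ∅ := by
          ext; simp [hm]
        rw [this]
        exact MeasurableSet.empty
    have hAiff : ∀ ω : ℕ → V, Preorder.frestrictLe n ω ∈ A ↔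
        ∃ m, 1 ≤ m ∧ m ≤ n ∧ ω m = o := by
      intro ω
      constructor
      · rintro ⟨⟨m, hm⟩, h1, h2⟩
        exact ⟨m, h1, Finset.mem_Iic.mp hm, h2⟩
      · rintro ⟨m, h1, h2, h3⟩
        exact ⟨⟨m, Finset.mem_Iic.mpr h2⟩, h1, h3⟩
    let φ : ((i : Finset.Iic n) → V) × V → ℝ≥0∞ := fun p => if p.1 ∈ A then 1 else h p.2
    have hφ : Measurable φ := by
      refine Measurable.ite (measurable_fst hA) measurable_const ?_
      exact (Measurable.of_discrete (f := h)).comp measurable_snd
    have e1 : ∀ ω, Φ (n + 1) ω = φ (Preorder.frestrictLe n ω, ω (n + 1)) := by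
      intro ω
      simp only [Φ, φ, hAiff]
      by_cases hc : ∃ m, 1 ≤ m ∧ m ≤ n ∧ ω m = o
      · rw [if_pos hc, if_pos]
        obtain ⟨m, h1, h2, h3⟩ := hc
        exact ⟨m, h1, by omega, h3⟩
      · rw [if_neg hc]
        by_cases hc' : ω (n + 1) = o
        · rw [hc', ho, if_pos]
          exact ⟨n + 1, by omega, le_rfl, hc'⟩
        · rw [if_neg]
          rintro ⟨m, h1, h2, h3⟩
          rcases Nat.lt_or_ge n m with h4 | h4
          · have : m = n + 1 := by omega
            exact hc' (this ▸ h3)
          · exact hc ⟨m, h1, h4, h3⟩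
    simp_rw [e1]
    rw [hstep n φ hφ]
    have e2 : ∀ w : (i : Finset.Iic n) → V, ∫⁻ y, φ (w, y) ∂(stepKernel G n w) =
        if w ∈ A then 1 else (∑ y ∈ G.neighborFinset (w ⟨n, Finset.mem_Iic.mpr le_rfl⟩), h y) /
          (G.degree (w ⟨n, Finset.mem_Iic.mpr le_rfl⟩) : ℝ≥0∞) := by
      intro w
      by_cases hw : w ∈ A
      · simp [φ, hw]
      · simp only [φ, hw, if_false]
        exact lintegral_step G _ (hdeg _) h
    simp_rw [e2]
    rw [lintegral_map _ (by fun_prop)]
    · refine lintegral_mono fun ω => ?_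
      simp only [hAiff]
      exact le_rfl
    · refine Measurable.ite hA measurable_const ?_
      exact (Measurable.of_discrete (f := fun x : V => (∑ y ∈ G.neighborFinset x, h y) /
        (G.degree x : ℝ≥0∞))).comp (measurable_pi_apply _)
  have hmono : ∀ n, ∫⁻ ω, Φ (n + 1) ω ∂μ ≤
      (∑ y ∈ G.neighborFinset o, h y) / (G.degree o : ℝ≥0∞) := by
    intro n
    induction n with
    | zero =>
      refine (hpos 0).trans ?_
      have h0 : ∀ᵐ ω ∂μ, ω 0 = o := by
        have h2 := Kernel.traj_map_frestrictLe_apply (X := fun _ => V) (κ := stepKernel G) 0 0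
          (fun _ => o)
        rw [Kernel.partialTraj_self, Kernel.id_apply] at h2
        have h3 : ∀ᵐ w ∂(μ.map (Preorder.frestrictLe 0)), w = fun _ => o := by
          rw [hμ, srwLaw, h2]
          rw [ae_dirac_eq]
          simp
        have h4 := ae_of_ae_map (by fun_prop) h3
        filter_upwards [h4] with ω hω
        have := congrFun hω ⟨0, Finset.mem_Iic.mpr le_rfl⟩
        exact this
      rw [lintegral_congr_ae (g := fun _ =>
        (∑ y ∈ G.neighborFinset o, h y) / (G.degree o : ℝ≥0∞))]
      · simp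
      · filter_upwards [h0] with ω hω
        rw [if_neg, hω]
        rintro ⟨m, h1, h2, _⟩
        omega
    | succ n ih =>
      refine le_trans ((hpos (n + 1)).trans (lintegral_mono fun ω => ?_)) ih
      simp only [Φ]
      split_ifs
      · exact le_rfl
      · exact hsup _
  -- conclusion
  have hunion : {ω : ℕ → V | ∃ n, 1 ≤ n ∧ ω n = o} =
      ⋃ n : ℕ, {ω : ℕ → V | ∃ m, 1 ≤ m ∧ m ≤ n + 1 ∧ ω m = o} := by
    ext ω
    simp only [Set.mem_ofPred_eq, Set.mem_iUnion]
    constructor
    · rintro ⟨n, h1, h2⟩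
      exact ⟨n, n, h1, by omega, h2⟩
    · rintro ⟨_, m, h1, _, h2⟩
      exact ⟨m, h1, h2⟩
  rw [hunion]
  have hmonoset : Monotone (fun n : ℕ => {ω : ℕ → V | ∃ m, 1 ≤ m ∧ m ≤ n + 1 ∧ ω m = o}) := by
    intro a b hab ω
    rintro ⟨m, h1, h2, h3⟩
    exact ⟨m, h1, by omega, h3⟩
  rw [hmonoset.measure_iUnion]
  refine iSup_le fun n => le_trans ?_ (hmono n)
  have hms : MeasurableSet {ω : ℕ → V | ∃ m, 1 ≤ m ∧ m ≤ n + 1 ∧ ω m = o} := by
    have : {ω : ℕ → V | ∃ m, 1 ≤ m ∧ m ≤ n + 1 ∧ ω m = o} =
        ⋃ m ∈ Finset.Icc 1 (n + 1), {ω : ℕ → V | ω m = o} := by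
      ext ω
      simp only [Set.mem_ofPred_eq, Set.mem_iUnion, Finset.mem_Icc, exists_prop]
      constructor
      · rintro ⟨m, h1, h2, h3⟩
        exact ⟨m, ⟨h1, h2⟩, h3⟩
      · rintro ⟨m, ⟨h1, h2⟩, h3⟩
        exact ⟨m, h1, h2, h3⟩
    rw [this]
    exact Finset.measurableSet_biUnion _ fun m _ => hmeas m
  rw [← lintegral_indicator_one hms]
  refine lintegral_mono fun ω => ?_
  simp only [Set.indicator_apply, Set.mem_ofPred_eq, Φ, Pi.one_apply]
  split_ifs
  · exact le_rfl
  · exact zero_le

end supermartingale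

/-! ### The graph -/

/-- Successor state of the schedule. -/
def nxt (p : ℕ × ℕ) : ℕ × ℕ := if p.2 < p.1 then (p.1, p.2 + 1) else (p.1 + 1, 0)

/-- The schedule: at level `t` there are `(sched t).1` coordinates, and coordinate
`(sched t).2` is re-randomised between level `t` and level `t + 1`. -/
def sched : ℕ → ℕ × ℕ
  | 0 => (0, 0)
  | t + 1 => nxt (sched t)

theorem sched_le (t : ℕ) : (sched t).2 ≤ (sched t).1 := by
  induction t with
  | zero => simp [sched]
  | succ t ih =>
    simp only [sched, nxt]
    split_ifs <;> (simp; try omega)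

theorem sched_succ_lt {t : ℕ} (h : (sched t).2 < (sched t).1) :
    sched (t + 1) = ((sched t).1, (sched t).2 + 1) := by
  simp [sched, nxt, h]

theorem sched_succ_eq {t : ℕ} (h : ¬ (sched t).2 < (sched t).1) :
    sched (t + 1) = ((sched t).1 + 1, 0) := by
  simp [sched, nxt, h]

theorem sched_mono_succ (t : ℕ) : (sched t).1 ≤ (sched (t + 1)).1 := by
  by_cases h : (sched t).2 < (sched t).1
  · rw [sched_succ_lt h]
  · rw [sched_succ_eq h]; simp

theorem sched_mono {s t : ℕ} (h : s ≤ t) : (sched s).1 ≤ (sched t).1 := by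
  induction t, h using Nat.le_induction with
  | base => exact le_rfl
  | succ t _ ih => exact ih.trans (sched_mono_succ t)

/-- the coordinate used at time `t` exists at time `t + 1` -/
theorem sched_lt_succ (t : ℕ) : (sched t).2 < (sched (t + 1)).1 := by
  by_cases h : (sched t).2 < (sched t).1
  · rw [sched_succ_lt h]; exact h
  · rw [sched_succ_eq h]; have := sched_le t; simp; omega

theorem sched_succ_le (t : ℕ) : (sched (t + 1)).1 ≤ (sched t).1 + 1 := by
  by_cases h : (sched t).2 < (sched t).1
  · rw [sched_succ_lt h]; simp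
  · rw [sched_succ_eq h]

/-- coordinates that are available were introduced earlier -/
theorem exists_intro (t j : ℕ) (h : j < (sched t).1) : ∃ s < t, (sched s).2 = j := by
  induction t with
  | zero => simp [sched] at h
  | succ t ih =>
    by_cases h1 : j < (sched t).1
    · obtain ⟨s, hs, hj⟩ := ih h1
      exact ⟨s, by omega, hj⟩
    · refine ⟨t, by omega, ?_⟩
      by_cases h2 : (sched t).2 < (sched t).1
      · rw [sched_succ_lt h2] at h; omega
      · rw [sched_succ_eq h2] at h
        simp only at h
        have := sched_le t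
        omega

theorem sched_run (t i : ℕ) (h : sched t = ((sched t).1, 0)) (hi : i ≤ (sched t).1) :
    sched (t + i) = ((sched t).1, i) := by
  induction i with
  | zero => simpa using h
  | succ i ih =>
    have h1 := ih (by omega)
    have h2 : (sched (t + i)).2 < (sched (t + i)).1 := by rw [h1]; simp; omega
    rw [← add_assoc, sched_succ_lt h2, h1]

theorem exists_phase (k : ℕ) : ∃ t, k ≤ t ∧ sched t = (k, 0) := by
  induction k with
  | zero => exact ⟨0, le_rfl, rfl⟩
  | succ k ih =>
    obtain ⟨t, ht, h⟩ := ih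
    have h1 := sched_run t k (by rw [h]) (by rw [h])
    refine ⟨t + k + 1, by omega, ?_⟩
    rw [h] at h1
    have h2 : ¬ (sched (t + k)).2 < (sched (t + k)).1 := by rw [h1]; simp
    rw [sched_succ_eq h2, h1]

/-- every coordinate is used at arbitrarily late times -/
theorem exists_late (j t : ℕ) : ∃ T, t ≤ T ∧ (sched T).2 = j := by
  obtain ⟨s, hs, h⟩ := exists_phase (max j t)
  have h1 := sched_run s j (by rw [h]) (by rw [h]; simp)
  refine ⟨s + j, ?_, by rw [h1]⟩
  have := le_max_right j t
  omega

/-- the vertices -/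
def Vtx : Type := {p : ℕ × Finset ℕ // p.2 ⊆ Finset.range (sched p.1).1}

instance : Countable Vtx :=
  inferInstanceAs (Countable {p : ℕ × Finset ℕ // p.2 ⊆ Finset.range (sched p.1).1})
instance : DecidableEq Vtx :=
  inferInstanceAs (DecidableEq {p : ℕ × Finset ℕ // p.2 ⊆ Finset.range (sched p.1).1})

/-- the level of a vertex -/
def Vtx.lv (x : Vtx) : ℕ := x.1.1
/-- the coordinate set of a vertex -/
def Vtx.co (x : Vtx) : Finset ℕ := x.1.2

theorem Vtx.co_sub (x : Vtx) : x.co ⊆ Finset.range (sched x.lv).1 := x.2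

theorem Vtx.ext' {x y : Vtx} (h1 : x.lv = y.lv) (h2 : x.co = y.co) : x = y :=
  Subtype.ext (Prod.ext h1 h2)

/-- constructor -/
def Vtx.mk (t : ℕ) (S : Finset ℕ) (h : S ⊆ Finset.range (sched t).1) : Vtx := ⟨(t, S), h⟩

@[simp] theorem Vtx.mk_lv (t : ℕ) (S : Finset ℕ) (h : S ⊆ Finset.range (sched t).1) :
    (Vtx.mk t S h).lv = t := rfl
@[simp] theorem Vtx.mk_co (t : ℕ) (S : Finset ℕ) (h : S ⊆ Finset.range (sched t).1) :
    (Vtx.mk t S h).co = S := rfl

/-- `y` is one level above `x` and the coordinate sets agree except possibly at the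
coordinate in use. -/
def Up (x y : Vtx) : Prop :=
  y.lv = x.lv + 1 ∧ symmDiff x.co y.co ⊆ {(sched x.lv).2}

/-- the graph -/
def Gr : SimpleGraph Vtx where
  Adj x y := Up x y ∨ Up y x
  symm := ⟨fun _ _ h => h.symm⟩
  loopless := ⟨fun x h => by
    rcases h with h | h <;> · have := h.1; omega⟩

theorem adj_iff (x y : Vtx) : Gr.Adj x y ↔ Up x y ∨ Up y x := Iff.rfl

/-- upper neighbours -/
def ups (x : Vtx) : Finset Vtx :=
  {Vtx.mk (x.lv + 1) x.co (x.co_sub.trans (Finset.range_subset_range.mpr (sched_mono_succ _))),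
   Vtx.mk (x.lv + 1) (symmDiff x.co {(sched x.lv).2}) (by
    intro a ha
    rw [Finset.mem_symmDiff] at ha
    rcases ha with ha | ha
    · exact (x.co_sub.trans (Finset.range_subset_range.mpr (sched_mono_succ _))) ha.1
    · rw [Finset.mem_singleton.mp ha.1, Finset.mem_range]
      exact sched_lt_succ _)}

theorem symmDiff_subset_singleton {S S' : Finset ℕ} {c : ℕ} :
    symmDiff S S' ⊆ {c} ↔ S' = S ∨ S' = symmDiff S {c} := by
  rw [Finset.subset_singleton_iff]
  constructor
  · rintro (h | h)
    · left
      exact (symmDiff_eq_bot.mp h).symm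
    · right
      rw [← h, symmDiff_symmDiff_cancel_left]
  · rintro (h | h)
    · left; rw [h]; exact symmDiff_self _
    · right; rw [h, symmDiff_symmDiff_cancel_left]

theorem mem_ups (x y : Vtx) : y ∈ ups x ↔ Up x y := by
  rw [ups, Finset.mem_insert, Finset.mem_singleton, Up, symmDiff_subset_singleton]
  constructor
  · rintro (h | h)
    · subst h; exact ⟨rfl, Or.inl rfl⟩
    · subst h; exact ⟨rfl, Or.inr rfl⟩
  · rintro ⟨h1, h2 | h2⟩
    · left; exact Vtx.ext' h1 h2
    · right; exact Vtx.ext' h1 h2

theorem card_ups (x : Vtx) : (ups x).card = 2 := by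
  rw [ups, Finset.card_insert_of_notMem, Finset.card_singleton]
  rw [Finset.mem_singleton]
  intro h
  have h1 : x.co = symmDiff x.co {(sched x.lv).2} := congrArg Vtx.co h
  have h2 := symmDiff_eq_left.mp h1.symm
  simp at h2

/-- all vertices up to a given level -/
def upTo (N : ℕ) : Finset Vtx :=
  ((Finset.range (N + 1)) ×ˢ (Finset.range (sched N).1).powerset).subtype
    (fun p : ℕ × Finset ℕ => p.2 ⊆ Finset.range (sched p.1).1)

theorem mem_upTo (N : ℕ) (x : Vtx) : x ∈ upTo N ↔ x.lv ≤ N := by
  unfold upTo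
  erw [Finset.mem_subtype]
  rw [Finset.mem_product, Finset.mem_range, Finset.mem_powerset]
  constructor
  · rintro ⟨h, -⟩
    have : x.lv < N + 1 := h
    omega
  · intro h
    refine ⟨?_, ?_⟩
    · have : x.lv < N + 1 := by omega
      exact this
    · exact x.co_sub.trans (Finset.range_subset_range.mpr (sched_mono h))

instance (x y : Vtx) : Decidable (Up x y) := by
  unfold Up; infer_instance

/-- lower neighbours -/
def downs (x : Vtx) : Finset Vtx := (upTo x.lv).filter (fun y => Up y x)

theorem mem_downs (x y : Vtx) : y ∈ downs x ↔ Up y x := by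
  rw [downs, Finset.mem_filter, mem_upTo, and_iff_right_iff_imp]
  intro h
  have := h.1
  omega

/-- all neighbours -/
def nbrs (x : Vtx) : Finset Vtx := ups x ∪ downs x

theorem mem_nbrs (x y : Vtx) : y ∈ nbrs x ↔ Gr.Adj x y := by
  rw [nbrs, Finset.mem_union, mem_ups, mem_downs, adj_iff]

instance : Gr.LocallyFinite := fun x =>
  Fintype.ofFinset (nbrs x) (fun y => by rw [mem_nbrs]; rfl)

theorem neighborFinset_eq (x : Vtx) : Gr.neighborFinset x = nbrs x := by
  ext y
  rw [SimpleGraph.mem_neighborFinset, mem_nbrs]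

theorem disj (x : Vtx) : Disjoint (ups x) (downs x) := by
  rw [Finset.disjoint_left]
  intro y hy hy'
  rw [mem_ups] at hy
  rw [mem_downs] at hy'
  have h1 := hy.1
  have h2 := hy'.1
  omega

theorem card_downs_le_two (x : Vtx) : (downs x).card ≤ 2 := by
  rcases Nat.eq_zero_or_pos x.lv with h | h
  · have : downs x = ∅ := by
      rw [Finset.eq_empty_iff_forall_notMem]
      intro y hy
      rw [mem_downs] at hy
      have := hy.1
      omega
    simp [this]
  · have h1 : (downs x).card = ((downs x).image Vtx.co).card := by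
      rw [Finset.card_image_of_injOn]
      intro y hy z hz hyz
      have hy' := ((mem_downs x y).mp hy).1
      have hz' := ((mem_downs x z).mp hz).1
      exact Vtx.ext' (by omega) hyz
    rw [h1]
    have h2 : (downs x).image Vtx.co ⊆ {x.co, symmDiff x.co {(sched (x.lv - 1)).2}} := by
      intro S hS
      obtain ⟨y, hy, rfl⟩ := Finset.mem_image.mp hS
      rw [mem_downs] at hy
      have h3 := hy.1
      have h4 := hy.2
      have h5 : y.lv = x.lv - 1 := by omega
      rw [symmDiff_comm, h5, symmDiff_subset_singleton] at h4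
      rcases h4 with h4 | h4
      · simp [h4]
      · simp [h4]
    exact (Finset.card_le_card h2).trans Finset.card_le_two

theorem card_downs_le_one (x : Vtx) (t : ℕ) (ht : x.lv = t + 1)
    (hn : ¬ (sched t).2 < (sched t).1) : (downs x).card ≤ 1 := by
  rw [Finset.card_le_one]
  intro y hy z hz
  rw [mem_downs] at hy hz
  have hy1 : y.lv = t := by have := hy.1; omega
  have hz1 : z.lv = t := by have := hz.1; omega
  have key : ∀ w : Vtx, Up w x → w.co = x.co.erase (sched t).2 := by
    intro w hw
    have hw1 : w.lv = t := by have := hw.1; omega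
    have h2 := hw.2
    have h3 := w.co_sub
    rw [hw1] at h2 h3
    ext a
    rw [Finset.mem_erase]
    constructor
    · intro ha
      have h4 : a ≠ (sched t).2 := by
        intro h
        have := Finset.mem_range.mp (h3 ha)
        omega
      refine ⟨h4, ?_⟩
      by_contra h5
      have : a ∈ symmDiff w.co x.co := by
        rw [Finset.mem_symmDiff]; exact Or.inl ⟨ha, h5⟩
      exact h4 (Finset.mem_singleton.mp (h2 this))
    · rintro ⟨h4, ha⟩
      by_contra h5
      have : a ∈ symmDiff w.co x.co := by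
        rw [Finset.mem_symmDiff]; exact Or.inr ⟨ha, h5⟩
      exact h4 (Finset.mem_singleton.mp (h2 this))
  exact Vtx.ext' (by omega) (by rw [key y hy, key z hz])

theorem degree_eq (x : Vtx) : Gr.degree x = 2 + (downs x).card := by
  rw [← SimpleGraph.card_neighborFinset_eq_degree, neighborFinset_eq, nbrs,
    Finset.card_union_of_disjoint (disj x), card_ups]

theorem degree_le (x : Vtx) : Gr.degree x ≤ 4 := by
  rw [degree_eq]
  have := card_downs_le_two x
  omega

/-- every vertex above level zero has a lower neighbour -/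
theorem exists_down (x : Vtx) (t : ℕ) (ht : x.lv = t + 1) : ∃ y, y.lv = t ∧ Up y x := by
  by_cases h : (sched t).2 < (sched t).1
  · refine ⟨Vtx.mk t x.co ?_, rfl, ?_, ?_⟩
    · have := x.co_sub
      rw [ht, sched_succ_lt h] at this
      exact this
    · exact ht
    · simp
  · refine ⟨Vtx.mk t (x.co.erase (sched t).1) ?_, rfl, ?_, ?_⟩
    · have := x.co_sub
      rw [ht, sched_succ_eq h] at this
      intro a ha
      rw [Finset.mem_erase] at ha
      have h1 := Finset.mem_range.mp (this ha.2)
      rw [Finset.mem_range]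
      have h2 := ha.1
      simp only at h1
      omega
    · exact ht
    · have h2 : (sched t).2 = (sched t).1 := by have := sched_le t; omega
      rw [Vtx.mk_lv, Vtx.mk_co, h2]
      intro a ha
      rw [Finset.mem_symmDiff] at ha
      rw [Finset.mem_singleton]
      rcases ha with ha | ha
      · exact absurd (Finset.mem_of_mem_erase ha.1) ha.2
      · by_contra h3
        exact ha.2 (Finset.mem_erase.mpr ⟨h3, ha.1⟩)

/-- the root -/
def root : Vtx := Vtx.mk 0 ∅ (Finset.empty_subset _)

theorem eq_root (x : Vtx) (h : x.lv = 0) : x = root := by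
  refine Vtx.ext' h ?_
  have := x.co_sub
  rw [h] at this
  have h2 : x.co = ∅ := by simpa [sched] using this
  rw [h2]; rfl

theorem reachable_root (n : ℕ) : ∀ x : Vtx, x.lv = n → Gr.Reachable root x := by
  induction n with
  | zero => intro x hx; rw [eq_root x hx]
  | succ n ih =>
    intro x hx
    obtain ⟨y, hy, hyx⟩ := exists_down x n hx
    exact (ih y hy).trans (SimpleGraph.Adj.reachable (Or.inl hyx))

theorem connected : Gr.Connected := by
  have : Nonempty Vtx := ⟨root⟩
  exact ⟨fun x y => (reachable_root _ x rfl).symm.trans (reachable_root _ y rfl)⟩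

theorem infinite_vtx : Infinite Vtx := by
  refine Infinite.of_injective (fun t : ℕ => Vtx.mk t ∅ (Finset.empty_subset _)) ?_
  intro a b h
  exact congrArg Vtx.lv h

/-! ### Transience -/

/-- positive potential, strictly decreasing in the level -/
noncomputable def pot (t : ℕ) : ℝ :=
  (2 * (sched t).1 + 4 - (sched t).2 : ℝ) / 2 ^ (sched t).1

theorem pot_pos (t : ℕ) : 0 < pot t := by
  have h : ((sched t).2 : ℝ) ≤ (sched t).1 := by exact_mod_cast sched_le t
  have h2 : (0 : ℝ) ≤ (sched t).1 := Nat.cast_nonneg _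
  unfold pot
  apply div_pos
  · linarith
  · positivity

theorem pot_sub (t : ℕ) : pot t - pot (t + 1) = 1 / 2 ^ (sched t).1 := by
  unfold pot
  by_cases h : (sched t).2 < (sched t).1
  · rw [sched_succ_lt h]
    push_cast
    field_simp
    ring
  · have h2 : (sched t).2 = (sched t).1 := by have := sched_le t; omega
    rw [sched_succ_eq h, h2]
    simp only
    push_cast
    rw [pow_succ]
    field_simp
    ring

theorem pot_lt (t : ℕ) : pot (t + 1) < pot t := by
  have := pot_sub t
  have h : (0 : ℝ) < 1 / 2 ^ (sched t).1 := by positivity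
  linarith

/-- sums over neighbours of functions of the level -/
theorem sum_nbrs_lv (x : Vtx) (φ : ℕ → ℝ) :
    ∑ y ∈ Gr.neighborFinset x, φ y.lv
      = 2 * φ (x.lv + 1) + (downs x).card * φ (x.lv - 1) := by
  rw [neighborFinset_eq, nbrs, Finset.sum_union (disj x)]
  congr 1
  · rw [Finset.sum_congr rfl (g := fun _ => φ (x.lv + 1))]
    · rw [Finset.sum_const, card_ups, nsmul_eq_mul]; norm_num
    · intro y hy
      rw [mem_ups] at hy
      rw [hy.1]
  · rw [Finset.sum_congr rfl (g := fun _ => φ (x.lv - 1))]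
    · rw [Finset.sum_const, nsmul_eq_mul]
    · intro y hy
      rw [mem_downs] at hy
      have := hy.1
      congr 1
      omega

theorem pot_superharmonic (x : Vtx) :
    ∑ y ∈ Gr.neighborFinset x, pot y.lv ≤ Gr.degree x * pot x.lv := by
  rw [sum_nbrs_lv, degree_eq]
  push_cast
  have h1 := pot_sub x.lv
  rcases Nat.eq_zero_or_pos x.lv with h | h
  · have h2 : (downs x).card = 0 := by
      rw [Finset.card_eq_zero, Finset.eq_empty_iff_forall_notMem]
      intro y hy
      rw [mem_downs] at hy
      have := hy.1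
      omega
    rw [h2]
    have h3 := pot_lt x.lv
    push_cast
    linarith
  · obtain ⟨t, ht⟩ : ∃ t, x.lv = t + 1 := ⟨x.lv - 1, by omega⟩
    have h2 := pot_sub t
    rw [ht] at h1 ⊢
    have h0 : t + 1 - 1 = t := by omega
    rw [h0]
    by_cases h3 : (sched t).2 < (sched t).1
    · have h4 := card_downs_le_two x
      have h5 : ((downs x).card : ℝ) ≤ 2 := by exact_mod_cast h4
      rw [sched_succ_lt h3] at h1
      simp only at h1
      have h6 : (0 : ℝ) < 1 / 2 ^ (sched t).1 := by positivity
      nlinarith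
    · have h4 := card_downs_le_one x t ht h3
      have h5 : ((downs x).card : ℝ) ≤ 1 := by exact_mod_cast h4
      rw [sched_succ_eq h3] at h1
      simp only at h1
      rw [pow_succ] at h1
      have h6 : (0 : ℝ) < 1 / 2 ^ (sched t).1 := by positivity
      have h7 : (1 : ℝ) / (2 ^ (sched t).1 * 2) = 1 / 2 * (1 / 2 ^ (sched t).1) := by
        field_simp
      rw [h7] at h1
      nlinarith

instance : MeasurableSpace Vtx := ⊤
instance : DiscreteMeasurableSpace Vtx := ⟨fun _ => trivial⟩

theorem transient : IsTransient Gr := by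
  intro o
  have hdeg : ∀ x, 0 < Gr.degree x := by
    intro x; rw [degree_eq]; omega
  let g : Vtx → ℝ := fun y => min 1 (pot y.lv / pot o.lv)
  have hg0 : ∀ y, 0 ≤ g y := by
    intro y
    exact le_min zero_le_one (div_nonneg (pot_pos _).le (pot_pos _).le)
  have hgo : g o = 1 := by
    simp only [g]
    rw [div_self (pot_pos _).ne', min_self]
  have hsum : ∀ x, (∑ y ∈ Gr.neighborFinset x, ENNReal.ofReal (g y)) / (Gr.degree x : ℝ≥0∞)
      = ENNReal.ofReal ((∑ y ∈ Gr.neighborFinset x, g y) / Gr.degree x) := by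
    intro x
    have hd : (0 : ℝ) < Gr.degree x := by exact_mod_cast hdeg x
    rw [ENNReal.ofReal_div_of_pos hd, ENNReal.ofReal_sum_of_nonneg (fun y _ => hg0 y),
      ENNReal.ofReal_natCast]
  refine lt_of_le_of_lt (return_le Gr hdeg (fun y => ENNReal.ofReal (g y)) o
    (by simp [hgo]) ?_) ?_
  · intro x
    rw [hsum]
    apply ENNReal.ofReal_le_ofReal
    have hd : (0 : ℝ) < Gr.degree x := by exact_mod_cast hdeg x
    rw [div_le_iff₀ hd]
    have h1 : ∑ y ∈ Gr.neighborFinset x, g y ≤ Gr.degree x := by
      calc ∑ y ∈ Gr.neighborFinset x, g y ≤ ∑ _y ∈ Gr.neighborFinset x, (1 : ℝ) :=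
            Finset.sum_le_sum fun y _ => min_le_left _ _
        _ = Gr.degree x := by simp
    have h2 : ∑ y ∈ Gr.neighborFinset x, g y ≤ Gr.degree x * (pot x.lv / pot o.lv) := by
      calc ∑ y ∈ Gr.neighborFinset x, g y
          ≤ ∑ y ∈ Gr.neighborFinset x, pot y.lv / pot o.lv :=
            Finset.sum_le_sum fun y _ => min_le_right _ _
        _ = (∑ y ∈ Gr.neighborFinset x, pot y.lv) / pot o.lv := by rw [Finset.sum_div]
        _ ≤ (Gr.degree x * pot x.lv) / pot o.lv :=
            div_le_div_of_nonneg_right (pot_superharmonic x) (pot_pos _).le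
        _ = Gr.degree x * (pot x.lv / pot o.lv) := by ring
    simp only [g]
    rcases min_choice 1 (pot x.lv / pot o.lv) with h | h
    · rw [h]; linarith
    · rw [h]; linarith
  · rw [hsum, ENNReal.ofReal_lt_one]
    have hd : (0 : ℝ) < Gr.degree o := by exact_mod_cast hdeg o
    rw [div_lt_one hd]
    obtain ⟨y, hy⟩ : ∃ y, y ∈ ups o := by
      have : 0 < (ups o).card := by rw [card_ups]; norm_num
      exact Finset.card_pos.mp this
    have hlt : ∑ y ∈ Gr.neighborFinset o, g y < ∑ _y ∈ Gr.neighborFinset o, (1 : ℝ) := by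
      apply Finset.sum_lt_sum (fun y _ => min_le_left _ _)
      refine ⟨y, ?_, ?_⟩
      · rw [neighborFinset_eq, nbrs]; exact Finset.mem_union_left _ hy
      · have h1 := ((mem_ups o y).mp hy).1
        refine (min_le_right _ _).trans_lt ?_
        rw [h1, div_lt_one (pot_pos _)]
        exact pot_lt _
    simpa using hlt

/-! ### Harmonic functions are constant -/

theorem harmonic_iff {V : Type*} (G : SimpleGraph V) [G.LocallyFinite]
    (hdeg : ∀ x, 0 < G.degree x) (f : V → ℝ) :
    IsHarmonic G f ↔ ∀ x, ∑ y ∈ G.neighborFinset x, (f x - f y) = 0 := by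
  refine forall_congr' fun x => ?_
  have hd : (0 : ℝ) < G.degree x := by exact_mod_cast hdeg x
  rw [Finset.sum_sub_distrib, Finset.sum_const, SimpleGraph.card_neighborFinset_eq_degree,
    nsmul_eq_mul, sub_eq_zero]
  constructor
  · intro h
    rw [h]; field_simp
  · intro h
    rw [← h]; field_simp

/-- A harmonic function with finite support on an infinite connected graph vanishes. -/
theorem eq_zero_of_finite_support {V : Type*} [Infinite V] (G : SimpleGraph V) [G.LocallyFinite]
    (hG : G.Connected) (g : V → ℝ) (hg : ∀ x, ∑ y ∈ G.neighborFinset x, (g x - g y) = 0)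
    (F : Finset V) (hF : ∀ x, x ∉ F → g x = 0) (x : V) : g x = 0 := by
  classical
  by_contra hx
  have hxF : x ∈ F := by by_contra h; exact hx (hF x h)
  obtain ⟨x1, hx1F, hx1⟩ := F.exists_max_image (fun y => |g y|) ⟨x, hxF⟩
  have hmax : ∀ y, |g y| ≤ |g x1| := by
    intro y
    by_cases hy : y ∈ F
    · exact hx1 y hy
    · rw [hF y hy, abs_zero]; exact abs_nonneg _
  have hpos : 0 < |g x1| := lt_of_lt_of_le (abs_pos.mpr hx) (hmax x)
  have hstep : ∀ y z, G.Adj y z → g y = g x1 → g z = g x1 := by
    intro y z hyz hy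
    have h1 := hg y
    rcases le_or_gt 0 (g x1) with h0 | h0
    · have h2 : ∀ w ∈ G.neighborFinset y, 0 ≤ g y - g w := by
        intro w _
        have := hmax w
        rw [abs_of_nonneg h0] at this
        rw [hy]
        linarith [le_abs_self (g w)]
      have h3 := (Finset.sum_eq_zero_iff_of_nonneg h2).mp h1 z (by simpa using hyz)
      linarith
    · have h2 : ∀ w ∈ G.neighborFinset y, g y - g w ≤ 0 := by
        intro w _
        have := hmax w
        rw [abs_of_neg h0] at this
        rw [hy]
        linarith [neg_abs_le (g w)]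
      have h3 := (Finset.sum_eq_zero_iff_of_nonpos h2).mp h1 z (by simpa using hyz)
      linarith
  have hall : ∀ y, g y = g x1 := by
    intro y
    obtain ⟨p⟩ := hG.preconnected x1 y
    have : ∀ {u w : V} (_ : G.Walk u w), g u = g x1 → g w = g x1 := by
      intro u w p
      induction p with
      | nil => exact id
      | cons h p ih => exact fun h1 => ih (hstep _ _ h h1)
    exact this p rfl
  obtain ⟨y, hy⟩ := Infinite.exists_notMem_finset F
  have := hall y
  rw [hF y hy] at this
  rw [← this, abs_zero] at hpos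
  exact lt_irrefl _ hpos

/-- Flip coordinate `j` at the levels in `(s, T]`. -/
def flip (j s T : ℕ) (hj : ∀ u, s < u → j < (sched u).1) (x : Vtx) : Vtx :=
  if h : s < x.lv ∧ x.lv ≤ T then
    Vtx.mk x.lv (symmDiff x.co {j}) (by
      intro a ha
      rw [Finset.mem_symmDiff] at ha
      rcases ha with ha | ha
      · exact x.co_sub ha.1
      · rw [Finset.mem_singleton.mp ha.1, Finset.mem_range]
        exact hj _ h.1)
  else x

section flip

variable (j s T : ℕ) (hj : ∀ u, s < u → j < (sched u).1)

theorem flip_lv (x : Vtx) : (flip j s T hj x).lv = x.lv := by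
  unfold flip
  split_ifs <;> rfl

theorem flip_co (x : Vtx) : (flip j s T hj x).co =
    if s < x.lv ∧ x.lv ≤ T then symmDiff x.co {j} else x.co := by
  unfold flip
  split_ifs <;> rfl

theorem flip_flip (x : Vtx) : flip j s T hj (flip j s T hj x) = x := by
  apply Vtx.ext'
  · rw [flip_lv, flip_lv]
  · rw [flip_co, flip_co, flip_lv]
    split_ifs
    · rw [symmDiff_symmDiff_cancel_right]
    · rfl

theorem flip_up (hs : (sched s).2 = j) (hT : (sched T).2 = j) (x y : Vtx) (h : Up x y) :
    Up (flip j s T hj x) (flip j s T hj y) := by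
  refine ⟨by rw [flip_lv, flip_lv]; exact h.1, ?_⟩
  rw [flip_lv, flip_co, flip_co]
  have h1 := h.1
  have h2 := h.2
  by_cases hx : s < x.lv ∧ x.lv ≤ T <;> by_cases hy : s < y.lv ∧ y.lv ≤ T
  · rw [if_pos hx, if_pos hy]
    rw [symmDiff_symmDiff_symmDiff_comm, symmDiff_self, symmDiff_bot]
    exact h2
  · rw [if_pos hx, if_neg hy]
    have h3 : x.lv = T := by omega
    rw [h3, hT] at h2 ⊢
    rw [symmDiff_right_comm]
    intro a ha
    rw [Finset.mem_symmDiff] at ha
    rcases ha with ha | ha
    · exact h2 ha.1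
    · exact ha.1
  · rw [if_neg hx, if_pos hy]
    have h3 : x.lv = s := by omega
    rw [h3, hs] at h2 ⊢
    rw [← symmDiff_assoc]
    intro a ha
    rw [Finset.mem_symmDiff] at ha
    rcases ha with ha | ha
    · exact h2 ha.1
    · exact ha.1
  · rw [if_neg hx, if_neg hy]
    exact h2

theorem flip_adj (hs : (sched s).2 = j) (hT : (sched T).2 = j) (x y : Vtx) :
    Gr.Adj (flip j s T hj x) (flip j s T hj y) ↔ Gr.Adj x y := by
  have key : ∀ x y, Gr.Adj x y → Gr.Adj (flip j s T hj x) (flip j s T hj y) := by
    intro x y h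
    rcases h with h | h
    · exact Or.inl (flip_up j s T hj hs hT x y h)
    · exact Or.inr (flip_up j s T hj hs hT y x h)
  constructor
  · intro h
    have := key _ _ h
    rwa [flip_flip, flip_flip] at this
  · exact key x y

theorem sum_flip (hs : (sched s).2 = j) (hT : (sched T).2 = j) (x : Vtx) (f : Vtx → ℝ) :
    ∑ y ∈ Gr.neighborFinset (flip j s T hj x), f y
      = ∑ y ∈ Gr.neighborFinset x, f (flip j s T hj y) := by
  refine Finset.sum_nbij' (flip j s T hj) (flip j s T hj) ?_ ?_ ?_ ?_ ?_
  · intro y hy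
    rw [SimpleGraph.mem_neighborFinset] at hy ⊢
    rw [← flip_adj j s T hj hs hT, flip_flip]
    exact hy
  · intro y hy
    rw [SimpleGraph.mem_neighborFinset] at hy ⊢
    rw [flip_adj j s T hj hs hT]
    exact hy
  · intro y _; exact flip_flip j s T hj y
  · intro y _; exact flip_flip j s T hj y
  · intro y _; rw [flip_flip]

theorem eq_flip (hs : (sched s).2 = j) (hT : (sched T).2 = j) (f : Vtx → ℝ)
    (hf : ∀ x, ∑ y ∈ Gr.neighborFinset x, (f x - f y) = 0) (x : Vtx) :
    f x = f (flip j s T hj x) := by
  have := infinite_vtx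
  have h := eq_zero_of_finite_support Gr connected (fun x => f x - f (flip j s T hj x)) ?_
    (upTo T) ?_ x
  · linarith
  · intro x
    have h1 := hf x
    have h2 := hf (flip j s T hj x)
    rw [sum_flip j s T hj hs hT x (fun y => f (flip j s T hj x) - f y)] at h2
    calc ∑ y ∈ Gr.neighborFinset x, (f x - f (flip j s T hj x) - (f y - f (flip j s T hj y)))
        = ∑ y ∈ Gr.neighborFinset x, (f x - f y)
          - ∑ y ∈ Gr.neighborFinset x, (f (flip j s T hj x) - f (flip j s T hj y)) := by
          rw [← Finset.sum_sub_distrib]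
          refine Finset.sum_congr rfl fun y _ => ?_
          ring
      _ = 0 := by rw [h1, h2, sub_zero]
  · intro x hx
    rw [mem_upTo] at hx
    have : flip j s T hj x = x := by
      apply Vtx.ext' (flip_lv j s T hj x)
      rw [flip_co, if_neg (by omega)]
    rw [this, sub_self]

end flip

/-- the canonical vertex at level `t` -/
def base (t : ℕ) : Vtx := Vtx.mk t ∅ (Finset.empty_subset _)

theorem eq_base (f : Vtx → ℝ) (hf : ∀ x, ∑ y ∈ Gr.neighborFinset x, (f x - f y) = 0) :
    ∀ (n : ℕ) (x : Vtx), x.co.card = n → f x = f (base x.lv) := by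
  intro n
  induction n with
  | zero =>
    intro x hx
    have : x = base x.lv := Vtx.ext' rfl (Finset.card_eq_zero.mp hx)
    rw [← this]
  | succ n ih =>
    intro x hx
    obtain ⟨j, hj⟩ : ∃ j, j ∈ x.co := by
      apply Finset.card_pos.mp; omega
    have hjr := Finset.mem_range.mp (x.co_sub hj)
    obtain ⟨s, hs, hsj⟩ := exists_intro x.lv j hjr
    obtain ⟨T, hT, hTj⟩ := exists_late j x.lv
    have hju : ∀ u, s < u → j < (sched u).1 := by
      intro u hu
      have h1 := sched_lt_succ s
      have h2 := sched_mono (show s + 1 ≤ u by omega)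
      omega
    have h1 := eq_flip j s T hju hsj hTj f hf x
    have h2 : (flip j s T hju x).lv = x.lv := flip_lv _ _ _ _ x
    have h3 : (flip j s T hju x).co = x.co.erase j := by
      rw [flip_co, if_pos ⟨hs, hT⟩]
      ext a
      rw [Finset.mem_symmDiff, Finset.mem_singleton, Finset.mem_erase]
      constructor
      · rintro (⟨h4, h5⟩ | ⟨h4, h5⟩)
        · exact ⟨h5, h4⟩
        · exact absurd (h4 ▸ hj) h5
      · rintro ⟨h4, h5⟩
        exact Or.inl ⟨h5, h4⟩
    have h4 := ih (flip j s T hju x) (by rw [h3, Finset.card_erase_of_mem hj, hx]; rfl)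
    rw [h1, h4, h2]

theorem constant (f : Vtx → ℝ) (hf : ∀ x, ∑ y ∈ Gr.neighborFinset x, (f x - f y) = 0) (x : Vtx) :
    f x = f (base 0) := by
  have h1 : ∀ x, f x = f (base x.lv) := fun x => eq_base f hf _ x rfl
  have h2 : ∀ t, f (base (t + 1)) = f (base t) := by
    intro t
    induction t with
    | zero =>
      have h3 : ∑ y ∈ Gr.neighborFinset (base 0), (f (base 0) - f (base y.lv)) = 0 := by
        rw [← hf (base 0)]
        exact Finset.sum_congr rfl fun y _ => by rw [h1 y]
      rw [sum_nbrs_lv (base 0) (fun l => f (base 0) - f (base l))] at h3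
      have h4 : (base 0).lv = 0 := rfl
      have h5 : (downs (base 0)).card = 0 := by
        rw [Finset.card_eq_zero, Finset.eq_empty_iff_forall_notMem]
        intro y hy
        rw [mem_downs] at hy
        have := hy.1
        rw [h4] at this
        omega
      rw [h5, h4] at h3
      push_cast at h3
      linarith
    | succ t ih =>
      have h3 : ∑ y ∈ Gr.neighborFinset (base (t + 1)), (f (base (t + 1)) - f (base y.lv)) = 0 := by
        rw [← hf (base (t + 1))]
        exact Finset.sum_congr rfl fun y _ => by rw [h1 y]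
      rw [sum_nbrs_lv (base (t + 1)) (fun l => f (base (t + 1)) - f (base l))] at h3
      have h4 : (base (t + 1)).lv = t + 1 := rfl
      have h5 : t + 1 - 1 = t := rfl
      rw [h4, h5, ih] at h3
      rw [ih]
      linarith
  rw [h1 x]
  induction x.lv with
  | zero => rfl
  | succ t ih => rw [h2, ih]

/-- There is a transient graph, with all degrees at most four, on which every harmonic function
is constant. -/
theorem result : ∃ (V : Type) (_ : MeasurableSpace V) (_ : DiscreteMeasurableSpace V)
    (G : SimpleGraph V) (_ : G.LocallyFinite),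
    Infinite V ∧ G.Connected ∧ (∀ x, G.degree x ≤ 4) ∧ IsTransient G ∧
      ∀ f : V → ℝ, IsHarmonic G f → ∃ c, ∀ x, f x = c := by
  refine ⟨Vtx, inferInstance, inferInstance, Gr, inferInstance, infinite_vtx, connected,
    degree_le, transient, fun f hf => ⟨f (base 0), fun x => ?_⟩⟩
  have hdeg : ∀ x, 0 < Gr.degree x := by
    intro x; rw [degree_eq]; omega
  exact constant f ((harmonic_iff Gr hdeg f).mp hf) x

end Pool.Agent.Results.MP_469b0e_pr.Transient

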