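import Mathlib

set_option autoImplicit false

open Filter Topology

namespace Pool.Agent.Results.MP_469b0e_pr.TwoEnds

/-- `f` has the mean-value property for simple random walk on `G`. -/
def IsHarmonic {V : Type*} (G : SimpleGraph V) [G.LocallyFinite] (f : V → ℝ) : Prop :=
  ∀ x, f x = 1 / (G.degree x : ℝ) * ∑ y ∈ G.neighborFinset x, f y

/-- The number of ends of `G`: the supremum over finite vertex sets `K` of the number of
infinite connected components of `G` with `K` removed. -/
noncomputable def numEnds {V : Type*} (G : SimpleGraph V) : ℕ∞ :=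
  ⨆ K : Finset V, {C : G.ComponentCompl (K : Set V) | (C : Set V).Infinite}.encard

section finite

variable {W : Type*} [Fintype W] [DecidableEq W]

open Classical in
/-- A function with Laplacian `δ_a - δ_b` on a finite connected graph. -/
theorem exists_dipole (H : SimpleGraph W) (hH : H.Connected) (a b : W) :
    ∃ v : W → ℝ, ∀ x, ∑ y, (if H.Adj x y then v x - v y else 0)
      = (if x = a then 1 else 0) - (if x = b then 1 else 0) := by
  classical
  let T : (W → ℝ) →ₗ[ℝ] (W → ℝ) := (H.lapMatrix ℝ).toLin'
  let S : (W → ℝ) →ₗ[ℝ] ℝ := ∑ x, LinearMap.proj x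
  have hS : ∀ u, S u = ∑ x, u x := by
    intro u
    simp [S]
  have hTS : LinearMap.range T ≤ LinearMap.ker S := by
    rintro _ ⟨u, rfl⟩
    rw [LinearMap.mem_ker, hS]
    have hsymm := H.isSymm_lapMatrix (R := ℝ)
    have h1 : ∑ x, T u x = (fun _ => (1 : ℝ)) ⬝ᵥ ((H.lapMatrix ℝ).mulVec u) := by
      simp [T, dotProduct, Matrix.toLin'_apply]
    rw [h1, Matrix.dotProduct_mulVec, ← Matrix.mulVec_transpose, hsymm.eq,
      H.lapMatrix_mulVec_const_eq_zero (R := ℝ)]
    simp
  have hker : Module.finrank ℝ (LinearMap.ker T) = 1 := by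
    have := H.card_connectedComponent_eq_finrank_ker_toLin'_lapMatrix
    rw [← this]
    have := hH.preconnected.subsingleton_connectedComponent
    have := hH.nonempty
    rw [Fintype.card_eq_one_iff_nonempty_unique]
    exact ⟨⟨⟨H.connectedComponentMk (Classical.arbitrary W)⟩, fun x => Subsingleton.elim _ _⟩⟩
  have hrn := LinearMap.finrank_range_add_finrank_ker T
  have hS0 : S ≠ 0 := by
    intro h
    have : S (fun x => if x = a then 1 else 0) = 0 := by rw [h]; rfl
    rw [hS] at this
    simp at this
  have hkS : Module.finrank ℝ (LinearMap.ker S) + 1 = Module.finrank ℝ (W → ℝ) := by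
    have h2 := LinearMap.finrank_range_add_finrank_ker S
    have h3 : LinearMap.range S = ⊤ := LinearMap.range_eq_top.mpr (LinearMap.surjective hS0)
    rw [h3, finrank_top, Module.finrank_self] at h2
    omega
  have heq : LinearMap.range T = LinearMap.ker S := by
    apply Submodule.eq_of_le_of_finrank_eq hTS
    omega
  have hmem : (fun x => (if x = a then (1:ℝ) else 0) - (if x = b then 1 else 0)) ∈
      LinearMap.range T := by
    rw [heq, LinearMap.mem_ker, hS]
    simp
  obtain ⟨v, hv⟩ := hmem
  refine ⟨v, fun x => ?_⟩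
  have h4 := congrFun hv x
  simp only [T, Matrix.toLin'_apply] at h4
  rw [H.lapMatrix_mulVec_apply] at h4
  rw [← h4, ← Finset.sum_filter]
  have h5 : H.neighborFinset x = Finset.univ.filter (H.Adj x) := by
    ext y; simp
  rw [← h5, Finset.sum_sub_distrib, Finset.sum_const, SimpleGraph.card_neighborFinset_eq_degree,
    nsmul_eq_mul]

end finite

section infinite

variable {V : Type*}

open Classical in
/-- A dipole potential on a finite connected vertex set `B`. -/
theorem exists_dipole_on (G : SimpleGraph V) (B : Finset V)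
    (hB : (G.induce (B : Set V)).Connected) (a b : V) (ha : a ∈ B) (hb : b ∈ B) :
    ∃ v : V → ℝ, ∀ x ∈ B, ∑ y ∈ B, (if G.Adj x y then v x - v y else 0)
      = (if x = a then 1 else 0) - (if x = b then 1 else 0) := by
  obtain ⟨u, hu⟩ := exists_dipole (G.induce (B : Set V)) hB ⟨a, ha⟩ ⟨b, hb⟩
  refine ⟨fun x => if h : x ∈ (B : Set V) then u ⟨x, h⟩ else 0, fun x hx => ?_⟩
  have h1 := hu ⟨x, hx⟩
  have hx' : x ∈ (B : Set V) := hx
  rw [← Finset.sum_coe_sort B]
  simp only [SimpleGraph.comap_adj, Function.Embedding.subtype_apply, Subtype.mk.injEq] at h1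
  rw [← h1]
  apply Finset.sum_congr rfl
  rintro ⟨y, hy⟩ -
  have hy' : y ∈ (B : Set V) := hy
  simp only [hx', hy', dif_pos]

open Classical in
/-- Antisymmetric sums over a square vanish. -/
theorem sum_antisymm (U : Finset V) (g : V → V → ℝ) (hg : ∀ x y, g x y = - g y x) :
    ∑ x ∈ U, ∑ y ∈ U, g x y = 0 := by
  have h : ∑ x ∈ U, ∑ y ∈ U, g x y = - ∑ x ∈ U, ∑ y ∈ U, g x y := by
    calc ∑ x ∈ U, ∑ y ∈ U, g x y = ∑ y ∈ U, ∑ x ∈ U, g x y := Finset.sum_comm
      _ = ∑ y ∈ U, ∑ x ∈ U, - g y x := by
        refine Finset.sum_congr rfl fun y _ => Finset.sum_congr rfl fun x _ => hg x y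
      _ = - ∑ x ∈ U, ∑ y ∈ U, g x y := by simp [Finset.sum_neg_distrib]
  linarith

open Classical in
/-- The total outflow from `U ⊆ B` passes through the edges leaving `U`. -/
theorem sum_laplacian (G : SimpleGraph V) (B U : Finset V) (hU : U ⊆ B) (v : V → ℝ) :
    ∑ x ∈ U, ∑ y ∈ B, (if G.Adj x y then v x - v y else 0)
      = ∑ x ∈ U, ∑ y ∈ B \ U, (if G.Adj x y then v x - v y else 0) := by
  have h1 : ∀ x ∈ U, ∑ y ∈ B, (if G.Adj x y then v x - v y else 0)
      = ∑ y ∈ B \ U, (if G.Adj x y then v x - v y else 0)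
        + ∑ y ∈ U, (if G.Adj x y then v x - v y else 0) := by
    intro x _
    rw [Finset.sum_sdiff hU]
  rw [Finset.sum_congr rfl h1, Finset.sum_add_distrib, sum_antisymm U, add_zero]
  intro x y
  by_cases h : G.Adj x y
  · simp [h, h.symm]
  · have h' : ¬ G.Adj y x := fun h' => h h'.symm
    simp [h, h']

open Classical in
/-- A unit dipole has gradient at most one. -/
theorem gradient_le_one (G : SimpleGraph V) (B : Finset V) (v : V → ℝ) (a b : V)
    (hv : ∀ x ∈ B, ∑ y ∈ B, (if G.Adj x y then v x - v y else 0)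
      = (if x = a then 1 else 0) - (if x = b then 1 else 0))
    (x y : V) (hx : x ∈ B) (hy : y ∈ B) (hxy : G.Adj x y) : v x - v y ≤ 1 := by
  by_cases hlt : v y < v x
  · let U := B.filter (fun u => v x ≤ v u)
    have hUB : U ⊆ B := Finset.filter_subset _ _
    have h1 := sum_laplacian G B U hUB v
    have h2 : ∑ u ∈ U, ∑ w ∈ B, (if G.Adj u w then v u - v w else 0) ≤ 1 := by
      rw [Finset.sum_congr rfl fun u hu => hv u (hUB hu), Finset.sum_sub_distrib,
        Finset.sum_ite_eq', Finset.sum_ite_eq']
      split_ifs <;> norm_num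
    have hnn : ∀ u ∈ U, ∀ w ∈ B \ U, 0 ≤ (if G.Adj u w then v u - v w else 0) := by
      intro u hu w hw
      split_ifs
      · simp only [U, Finset.mem_filter, Finset.mem_sdiff, not_and, not_le] at hu hw
        have := hw.2 hw.1
        linarith [hu.2]
      · exact le_refl _
    have hxU : x ∈ U := by simp [U, hx]
    have hyU : y ∈ B \ U := by simp [U, hy, hlt]
    have h3 : v x - v y ≤ ∑ u ∈ U, ∑ w ∈ B \ U, (if G.Adj u w then v u - v w else 0) := by
      calc v x - v y = (if G.Adj x y then v x - v y else 0) := by simp [hxy]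
        _ ≤ ∑ w ∈ B \ U, (if G.Adj x w then v x - v w else 0) :=
          Finset.single_le_sum (f := fun w => (if G.Adj x w then v x - v w else 0))
            (fun w hw => hnn x hxU w hw) hyU
        _ ≤ _ := Finset.single_le_sum
            (f := fun u => ∑ w ∈ B \ U, (if G.Adj u w then v u - v w else 0))
            (fun u hu => Finset.sum_nonneg fun w hw => hnn u hu w hw) hxU
    linarith
  · linarith

variable (G : SimpleGraph V) [G.LocallyFinite]

open Classical in
/-- The ball of radius `n` around `o`. -/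
noncomputable def ball (o : V) : ℕ → Finset V
  | 0 => {o}
  | n + 1 => ball o n ∪ (ball o n).biUnion (fun x => G.neighborFinset x)

theorem ball_subset_succ (o : V) (n : ℕ) : ball G o n ⊆ ball G o (n + 1) := by
  classical
  rw [ball]
  exact Finset.subset_union_left

theorem ball_mono (o : V) {m n : ℕ} (h : m ≤ n) : ball G o m ⊆ ball G o n := by
  induction n, h using Nat.le_induction with
  | base => exact Finset.Subset.refl _
  | succ n _ ih => exact ih.trans (ball_subset_succ G o n)

theorem mem_ball_self (o : V) (n : ℕ) : o ∈ ball G o n :=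
  ball_mono G o (Nat.zero_le n) (by simp [ball])

theorem neighbor_mem_ball (o : V) (n : ℕ) {x y : V} (hx : x ∈ ball G o n) (hxy : G.Adj x y) :
    y ∈ ball G o (n + 1) := by
  classical
  rw [ball]
  refine Finset.mem_union_right _ (Finset.mem_biUnion.mpr ⟨x, hx, ?_⟩)
  simpa using hxy

theorem exists_mem_ball (hG : G.Connected) (o x : V) : ∃ n, x ∈ ball G o n := by
  have h : ∀ {u w : V} (p : G.Walk u w), u = o → ∃ n, w ∈ ball G o n := by
    intro u w p hu
    subst hu
    induction p using SimpleGraph.Walk.concatRec with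
    | Hnil => exact ⟨0, mem_ball_self G _ 0⟩
    | Hconcat p h ih =>
      obtain ⟨n, hn⟩ := ih
      exact ⟨n + 1, neighbor_mem_ball G _ n hn h⟩
  obtain ⟨p⟩ := hG.preconnected o x
  exact h p rfl

theorem ball_connected (o : V) (n : ℕ) : (G.induce (ball G o n : Set V)).Connected := by
  classical
  have key : ∀ m, ∀ x ∈ ball G o m, ∀ (n : ℕ) (_ : m ≤ n) (hx : x ∈ (ball G o n : Set V))
      (ho : o ∈ (ball G o n : Set V)), (G.induce (ball G o n : Set V)).Reachable ⟨o, ho⟩ ⟨x, hx⟩ := by
    intro m
    induction m with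
    | zero =>
      intro x hx n _ hx' ho
      have : x = o := by simpa [ball] using hx
      subst this
      exact SimpleGraph.Reachable.refl _
    | succ m ih =>
      intro x hx n hn hx' ho
      rw [ball] at hx
      rcases Finset.mem_union.mp hx with h | h
      · exact ih x h n (by omega) hx' ho
      · obtain ⟨y, hy, hyx⟩ := Finset.mem_biUnion.mp h
        have hyn : y ∈ (ball G o n : Set V) := ball_mono G o (by omega : m ≤ n) hy
        refine (ih y hy n (by omega) hyn ho).trans ?_
        apply SimpleGraph.Adj.reachable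
        simpa using hyx
  have hne : Nonempty (ball G o n : Set V) := ⟨⟨o, mem_ball_self G o n⟩⟩
  refine ⟨fun x y => ?_⟩
  exact (key n x.1 x.2 n le_rfl x.2 (mem_ball_self G o n)).symm.trans
    (key n y.1 y.2 n le_rfl y.2 (mem_ball_self G o n))

open Classical in
/-- Finite approximations of the limiting harmonic function. -/
theorem exists_approx (hG : G.Connected) (o : V) (K : Finset V)
    (C D : G.ComponentCompl (K : Set V)) (hCD : C ≠ D) (hC : (C : Set V).Infinite)
    (hD : (D : Set V).Infinite) (n : ℕ) :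
    ∃ v : V → ℝ, v o = 0 ∧
      (∀ x ∈ ball G o n, ∀ y ∈ ball G o n, G.Adj x y → |v x - v y| ≤ 1) ∧
      (∀ x ∈ ball G o n, ∑ y ∈ G.neighborFinset x, (v x - v y) = 0) ∧
      (K ⊆ ball G o n →
        ∑ w ∈ K, ∑ u ∈ (G.neighborFinset w).filter (fun u => u ∈ (C : Set V)), (v u - v w) = 1) := by
  obtain ⟨a, haC, ha⟩ := hC.exists_notMem_finset (ball G o n)
  obtain ⟨b, hbD, hb⟩ := hD.exists_notMem_finset (ball G o n)
  obtain ⟨k₁, hk₁⟩ := exists_mem_ball G hG o a
  obtain ⟨k₂, hk₂⟩ := exists_mem_ball G hG o b
  let N := max (n + 1) (max k₁ k₂)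
  let B := ball G o N
  have haB : a ∈ B := ball_mono G o (by simp [N]) hk₁
  have hbB : b ∈ B := ball_mono G o (by simp [N]) hk₂
  have hnB : ball G o (n + 1) ⊆ B := ball_mono G o (by simp [N])
  obtain ⟨u, hu⟩ := exists_dipole_on G B (ball_connected G o N) a b haB hbB
  refine ⟨fun x => u x - u o, by simp, ?_, ?_, ?_⟩
  · intro x hx y hy hxy
    have hx' := hnB (ball_subset_succ G o n hx)
    have hy' := hnB (ball_subset_succ G o n hy)
    have h1 := gradient_le_one G B u a b hu x y hx' hy' hxy
    have h2 := gradient_le_one G B u a b hu y x hy' hx' hxy.symm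
    simp only [sub_sub_sub_cancel_right]
    rw [abs_le]
    constructor <;> linarith
  · intro x hx
    have hx' := hnB (ball_subset_succ G o n hx)
    have h1 := hu x hx'
    have hxa : x ≠ a := fun h => ha (h ▸ hx)
    have hxb : x ≠ b := fun h => hb (h ▸ hx)
    rw [if_neg hxa, if_neg hxb, sub_zero, ← Finset.sum_filter] at h1
    have h2 : B.filter (fun y => G.Adj x y) = G.neighborFinset x := by
      ext y
      simp only [Finset.mem_filter, SimpleGraph.mem_neighborFinset, and_iff_right_iff_imp]
      intro h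
      exact hnB (neighbor_mem_ball G o n hx h)
    rw [h2] at h1
    simpa using h1
  · intro hK
    have hKB : K ⊆ B := fun x hx => hnB (ball_subset_succ G o n (hK hx))
    let U := B.filter (fun u => u ∈ (C : Set V))
    have hUB : U ⊆ B := Finset.filter_subset _ _
    have h1 := sum_laplacian G B U hUB u
    have hab : b ∉ (C : Set V) := by
      intro h
      exact Set.disjoint_left.mp (SimpleGraph.ComponentCompl.pairwise_disjoint hCD) h hbD
    have h2 : ∑ x ∈ U, ∑ w ∈ B, (if G.Adj x w then u x - u w else 0) = 1 := by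
      rw [Finset.sum_congr rfl fun x hx => hu x (hUB hx), Finset.sum_sub_distrib,
        Finset.sum_ite_eq', Finset.sum_ite_eq', if_pos, if_neg, sub_zero]
      · simp only [U, Finset.mem_filter, not_and]
        exact fun _ => hab
      · simp only [U, Finset.mem_filter]
        exact ⟨haB, haC⟩
    rw [h2] at h1
    have h3 : ∑ x ∈ U, ∑ w ∈ B \ U, (if G.Adj x w then u x - u w else 0)
        = ∑ x ∈ U, ∑ w ∈ K, (if G.Adj x w then u x - u w else 0) := by
      refine Finset.sum_congr rfl fun x hx => ?_
      have hKU : K ⊆ B \ U := by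
        intro w hw
        simp only [U, Finset.mem_sdiff, Finset.mem_filter, not_and]
        refine ⟨hKB hw, fun _ h => ?_⟩
        exact SimpleGraph.ComponentCompl.notMem_of_mem h hw
      symm
      apply Finset.sum_subset hKU
      intro w hw hwK
      rw [if_neg]
      intro hxw
      simp only [U, Finset.mem_sdiff, Finset.mem_filter, not_and] at hw hx
      exact hw.2 hw.1 (SimpleGraph.ComponentCompl.mem_of_adj x w hx.2 hwK hxw)
    rw [h3, Finset.sum_comm] at h1
    rw [h1]
    refine Finset.sum_congr rfl fun w hw => ?_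
    rw [← Finset.sum_filter]
    have h4 : (G.neighborFinset w).filter (fun u => u ∈ (C : Set V))
        = U.filter (fun a => G.Adj a w) := by
      ext x
      simp only [U, Finset.mem_filter, SimpleGraph.mem_neighborFinset]
      constructor
      · rintro ⟨h5, h6⟩
        exact ⟨⟨hnB (neighbor_mem_ball G o n (hK hw) h5), h6⟩, h5.symm⟩
      · rintro ⟨⟨_, h6⟩, h7⟩
        exact ⟨h7.symm, h6⟩
    rw [h4]
    refine Finset.sum_congr rfl fun x _ => ?_
    ring

theorem abs_le_of_ball (o : V) (n : ℕ) (v : V → ℝ) (h0 : v o = 0)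
    (h1 : ∀ x ∈ ball G o n, ∀ y ∈ ball G o n, G.Adj x y → |v x - v y| ≤ 1) :
    ∀ m ≤ n, ∀ x ∈ ball G o m, |v x| ≤ m := by
  classical
  intro m
  induction m with
  | zero =>
    intro _ x hx
    have : x = o := by simpa [ball] using hx
    simp [this, h0]
  | succ m ih =>
    intro hmn x hx
    have hxn := ball_mono G o hmn hx
    rw [ball] at hx
    push_cast
    rcases Finset.mem_union.mp hx with h | h
    · linarith [ih (by omega) x h]
    · obtain ⟨y, hy, hyx⟩ := Finset.mem_biUnion.mp h
      have hyn := ball_mono G o (by omega : m ≤ n) hy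
      have h2 := h1 y hyn x hxn (by simpa using hyx)
      have h3 := ih (by omega) y hy
      rw [abs_le] at h2 h3 ⊢
      constructor <;> linarith [h2.1, h2.2, h3.1, h3.2]

omit [G.LocallyFinite] in
theorem abs_le_dist (hG : G.Connected) (f : V → ℝ) (hf : ∀ x y, G.Adj x y → |f x - f y| ≤ 1)
    (x y : V) : |f x - f y| ≤ (G.dist x y : ℝ) := by
  have h : ∀ {u w : V} (p : G.Walk u w), |f u - f w| ≤ (p.length : ℝ) := by
    intro u w p
    induction p with
    | nil => simp
    | cons h p ih =>
      rw [SimpleGraph.Walk.length_cons]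
      push_cast
      have := hf _ _ h
      rw [abs_le] at *
      constructor <;> linarith [this.1, this.2, ih.1, ih.2]
  obtain ⟨p, hp⟩ := hG.exists_walk_length_eq_dist x y
  rw [← hp]
  exact h p

end infinite

/-- Every graph with at least two ends carries a non-constant harmonic function with Lipschitz
constant one. -/
theorem result {V : Type*} (G : SimpleGraph V) [G.LocallyFinite] (hG : G.Connected)
    (hends : 2 ≤ numEnds G) :
    ∃ f : V → ℝ, IsHarmonic G f ∧ (∀ x y, |f x - f y| ≤ (G.dist x y : ℝ)) ∧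
      ∃ x y, f x ≠ f y := by
  classical
  -- extract the finite set and the two infinite components
  obtain ⟨K, hK⟩ : ∃ K : Finset V,
      1 < {C : G.ComponentCompl (K : Set V) | (C : Set V).Infinite}.encard := by
    by_contra hcon
    push Not at hcon
    have h1 : numEnds G ≤ 1 := iSup_le hcon
    exact absurd (hends.trans h1) (by decide)
  obtain ⟨C, D, hC, hD, hCD⟩ := Set.one_lt_encard_iff.mp hK
  have hC : (C : Set V).Infinite := hC
  have hD : (D : Set V).Infinite := hD
  obtain ⟨o⟩ := hG.nonempty
  choose v hv0 hv1 hv2 hv3 using exists_approx G hG o K C D hCD hC hD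
  -- pointwise limits along an ultrafilter
  let F : Ultrafilter ℕ := Filter.hyperfilter ℕ
  have hFtop : (F : Filter ℕ) ≤ atTop := by
    rw [← Nat.cofinite_eq_atTop]
    exact Filter.hyperfilter_le_cofinite
  have hev : ∀ N : ℕ, ∀ᶠ n in (F : Filter ℕ), N ≤ n := fun N =>
    hFtop (eventually_ge_atTop N)
  have hlim : ∀ x, ∃ l : ℝ, Tendsto (fun n => v n x) F (𝓝 l) := by
    intro x
    obtain ⟨m, hm⟩ := exists_mem_ball G hG o x
    have hb : ∀ᶠ n in (F : Filter ℕ), v n x ∈ Set.Icc (-(m : ℝ)) m := by
      filter_upwards [hev m] with n hn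
      exact abs_le.mp (abs_le_of_ball G o n (v n) (hv0 n) (hv1 n) m hn x hm)
    have hcomp : IsCompact (Set.Icc (-(m : ℝ)) m) := isCompact_Icc
    obtain ⟨l, _, hl⟩ := hcomp.ultrafilter_le_nhds (F.map (fun n => v n x)) (by
      rw [Filter.le_principal_iff]
      exact hb)
    exact ⟨l, hl⟩
  choose f hf using hlim
  have hadj : ∀ x y, G.Adj x y → |f x - f y| ≤ 1 := by
    intro x y hxy
    obtain ⟨m, hm⟩ := exists_mem_ball G hG o x
    have ht : Tendsto (fun n => |v n x - v n y|) F (𝓝 |f x - f y|) := ((hf x).sub (hf y)).abs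
    refine le_of_tendsto ht ?_
    filter_upwards [hev (m + 1)] with n hn
    exact hv1 n x (ball_mono G o (by omega) hm) y
      (ball_mono G o hn (neighbor_mem_ball G o m hm hxy)) hxy
  refine ⟨f, ?_, abs_le_dist G hG f hadj, ?_⟩
  · intro x
    obtain ⟨m, hm⟩ := exists_mem_ball G hG o x
    have ht : Tendsto (fun n => ∑ y ∈ G.neighborFinset x, (v n x - v n y)) F
        (𝓝 (∑ y ∈ G.neighborFinset x, (f x - f y))) :=
      tendsto_finsetSum _ fun y _ => (hf x).sub (hf y)
    have h0 : ∑ y ∈ G.neighborFinset x, (f x - f y) = 0 := by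
      refine tendsto_nhds_unique ht ?_
      refine tendsto_const_nhds.congr' ?_
      filter_upwards [hev m] with n hn
      exact (hv2 n x (ball_mono G o hn hm)).symm
    rw [Finset.sum_sub_distrib, Finset.sum_const, SimpleGraph.card_neighborFinset_eq_degree,
      nsmul_eq_mul, sub_eq_zero] at h0
    have hdeg : (G.degree x : ℝ) ≠ 0 := by
      have : Nontrivial V := by
        have : Infinite V := Set.infinite_univ_iff.mp (hC.mono (Set.subset_univ _))
        infer_instance
      have := hG.preconnected.degree_pos_of_nontrivial x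
      positivity
    rw [← h0]
    field_simp
  · by_contra hcon
    push Not at hcon
    have ht : Tendsto (fun n => ∑ w ∈ K, ∑ u ∈ (G.neighborFinset w).filter
        (fun u => u ∈ (C : Set V)), (v n u - v n w)) F
        (𝓝 (∑ w ∈ K, ∑ u ∈ (G.neighborFinset w).filter (fun u => u ∈ (C : Set V)),
          (f u - f w))) :=
      tendsto_finsetSum _ fun w _ => tendsto_finsetSum _ fun u _ => (hf u).sub (hf w)
    have h1 : ∑ w ∈ K, ∑ u ∈ (G.neighborFinset w).filter (fun u => u ∈ (C : Set V)),
        (f u - f w) = 1 := by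
      refine tendsto_nhds_unique ht ?_
      refine tendsto_const_nhds.congr' ?_
      have hKb : ∃ N, K ⊆ ball G o N := by
        choose g hg using exists_mem_ball G hG o
        refine ⟨K.sup g, fun x hx => ball_mono G o (Finset.le_sup hx) (hg x)⟩
      obtain ⟨N, hN⟩ := hKb
      filter_upwards [hev N] with n hn
      exact (hv3 n (hN.trans (ball_mono G o hn))).symm
    have h2 : ∑ w ∈ K, ∑ u ∈ (G.neighborFinset w).filter (fun u => u ∈ (C : Set V)),
        (f u - f w) = 0 := by
      refine Finset.sum_eq_zero fun w _ => Finset.sum_eq_zero fun u _ => ?_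
      rw [hcon u w, sub_self]
    rw [h2] at h1
    exact zero_ne_one h1

end Pool.Agent.Results.MP_469b0e_pr.TwoEnds

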